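import Pool.Agent.Helper34.SD.Defs

/-!
# Project SD (MP_41f897_lc), module E3: extinction of a critical process
-/

set_option autoImplicit false

namespace Pool.Agent.Helper29.SD

open Pool.Agent.Helper34.SD Pool.Agent.Helper34.PT

/-- sums over all profiles of length `l` -/
private def S : ℕ → (List Bool → ℤ) → List Bool → ℤ
  | 0, f, W => f W
  | l + 1, f, W => S l f (sec W 0) + S l f (sec W 1) + S l f (sec W 2)

private theorem S_lin (c : ℤ) (f g : List Bool → ℤ) (l : ℕ) : ∀ W : List Bool,
    S l (fun U => c * f U - g U) W = c * S l f W - S l g W := by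
  induction l with
  | zero => intro W; rfl
  | succ l ih =>
    intro W
    simp only [S]
    rw [ih, ih, ih]
    ring

private theorem S_nal (m l : ℕ) : ∀ W : List Bool,
    ((nal (l + m) W : ℕ) : ℤ) = S l (fun U => ((nal m U : ℕ) : ℤ)) W := by
  induction l with
  | zero => intro W; rw [Nat.zero_add]; rfl
  | succ l ih =>
    intro W
    have e : l + 1 + m = (l + m) + 1 := by ring
    rw [e]
    simp only [nal, S]
    push_cast
    rw [ih, ih, ih]

private theorem cons3 (W : List Bool) :
    (sec W 0).count true + (sec W 1).count true + (sec W 2).count true = 3 * W.count true := by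
  induction W with
  | nil => simp [sec]
  | cons c W ih =>
    cases c with
    | false =>
      have n0 : nxt false 0 = 1 := by decide
      have n1 : nxt false 1 = 2 := by decide
      have n2 : nxt false 2 = 0 := by decide
      simp only [sec, n0, n1, n2, List.count_append, out, List.count_cons, List.count_nil]
      simp
      omega
    | true =>
      have n0 : nxt true 0 = 2 := by decide
      have n1 : nxt true 1 = 0 := by decide
      have n2 : nxt true 2 = 1 := by decide
      simp only [sec, n0, n1, n2, List.count_append, out, List.count_cons, List.count_nil]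
      simp
      omega

private theorem S_count (l : ℕ) : ∀ W : List Bool,
    S l (fun U => ((U.count true : ℕ) : ℤ)) W = 3 ^ l * ((W.count true : ℕ) : ℤ) := by
  induction l with
  | zero => intro W; simp [S]
  | succ l ih =>
    intro W
    simp only [S]
    rw [ih, ih, ih]
    have h := cons3 W
    have h' : ((sec W 0).count true : ℤ) + (sec W 1).count true + (sec W 2).count true =
        3 * W.count true := by exact_mod_cast h
    rw [pow_succ]
    linear_combination (3 ^ l : ℤ) * h'

private theorem S_nonneg {f : List Bool → ℤ} (hf : ∀ U, 0 ≤ f U) (l : ℕ) : ∀ W : List Bool,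
    0 ≤ S l f W := by
  induction l with
  | zero => intro W; exact hf W
  | succ l ih =>
    intro W
    simp only [S]
    have h0 := ih (sec W 0)
    have h1 := ih (sec W 1)
    have h2 := ih (sec W 2)
    linarith

private theorem S_ge {f : List Bool → ℤ} (hf : ∀ U, 0 ≤ f U) (v : List (Fin 3)) :
    ∀ W : List Bool, f (secs W v) ≤ S v.length f W := by
  induction v with
  | nil => intro W; exact le_refl _
  | cons s v ih =>
    intro W
    have h0 := S_nonneg hf v.length (sec W 0)
    have h1 := S_nonneg hf v.length (sec W 1)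
    have h2 := S_nonneg hf v.length (sec W 2)
    have h3 := ih (sec W s)
    simp only [secs, List.length_cons, S]
    fin_cases s
    · simp only [Fin.mk_zero, Fin.zero_eta] at h3 ⊢
      linarith
    · simp only [Fin.mk_one] at h3 ⊢
      linarith
    · simp only [Fin.reduceFinMk] at h3 ⊢
      linarith

private theorem nal_le (m : ℕ) : ∀ W : List Bool, nal m W ≤ 3 ^ m := by
  induction m with
  | zero =>
    intro W
    simp only [nal]
    split_ifs <;> simp
  | succ m ih =>
    intro W
    simp only [nal]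
    have h0 := ih (sec W 0)
    have h1 := ih (sec W 1)
    have h2 := ih (sec W 2)
    rw [pow_succ]
    omega

theorem hE3 : Stmt_E1 → Stmt_E2 → Stmt_E3 := by
  intro h1 h2 ε hε
  -- one step
  have hstep : ∀ n : ℕ, nal (n + 1) [true] ≤ 3 * nal n [true] := by
    intro n
    have e : nal (n + 1) [true] = nal n [true, true] + nal n [true] + nal n [false] := rfl
    have a1 := h1 n [true, true]
    have a3 := h1 n [false]
    simp at a1 a3
    rw [e]
    omega
  -- it is enough to find one `m`
  suffices h : ∃ m : ℕ, (nal m [true] : ℝ) ≤ ε * 3 ^ m by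
    obtain ⟨m, hm⟩ := h
    refine ⟨m, fun n hn => ?_⟩
    induction n, hn using Nat.le_induction with
    | base => exact hm
    | succ n _ ih =>
      have h3 : ((nal (n + 1) [true] : ℕ) : ℝ) ≤ 3 * (nal n [true] : ℝ) := by
        exact_mod_cast hstep n
      calc ((nal (n + 1) [true] : ℕ) : ℝ) ≤ 3 * (nal n [true] : ℝ) := h3
        _ ≤ 3 * (ε * 3 ^ n) := by linarith
        _ = ε * 3 ^ (n + 1) := by ring
  by_contra hcon
  push Not at hcon
  obtain ⟨K, hK⟩ := exists_nat_ge (2 / ε)
  obtain ⟨v, hv⟩ := h2 K
  obtain ⟨l, hl⟩ : ∃ l : ℕ, l = v.length := ⟨_, rfl⟩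
  have hKε : 2 ≤ (K : ℝ) * ε := by
    rwa [div_le_iff₀ hε] at hK
  -- the decrease
  have hdec : ∀ m : ℕ, (nal (l + m) [true] : ℝ) ≤ 3 ^ l * (nal m [true] : ℝ) - 3 ^ m := by
    intro m
    obtain ⟨N, hN⟩ : ∃ N : ℕ, N = nal m [true] := ⟨_, rfl⟩
    have hg : ∀ U : List Bool, 0 ≤ (N : ℤ) * ((U.count true : ℕ) : ℤ) - ((nal m U : ℕ) : ℤ) := by
      intro U
      have h3 := h1 m U
      rw [← hN] at h3
      have h4 : ((nal m U : ℕ) : ℤ) ≤ ((U.count true : ℕ) : ℤ) * (N : ℤ) := by exact_mod_cast h3
      linarith [mul_comm ((U.count true : ℕ) : ℤ) (N : ℤ)]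
    have h3 := S_ge hg v [true]
    rw [← hl, S_lin, S_count, ← S_nal] at h3
    have h4 : ([true] : List Bool).count true = 1 := rfl
    rw [h4] at h3
    have h5 : ((nal m (secs [true] v) : ℕ) : ℤ) ≤ 3 ^ m := by exact_mod_cast nal_le m _
    have h6 : (N : ℤ) * (K : ℤ) ≤ (N : ℤ) * (((secs [true] v).count true : ℕ) : ℤ) :=
      mul_le_mul_of_nonneg_left (by exact_mod_cast hv) (Int.natCast_nonneg N)
    have h7 : ((nal (l + m) [true] : ℕ) : ℤ) ≤ 3 ^ l * (N : ℤ) - ((N : ℤ) * (K : ℤ) - 3 ^ m) := by
      push_cast at h3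
      linarith
    have h8 : ((nal (l + m) [true] : ℕ) : ℝ) ≤ 3 ^ l * (N : ℝ) - ((N : ℝ) * (K : ℝ) - 3 ^ m) := by
      exact_mod_cast h7
    have h9 := hcon m
    rw [← hN] at h9 ⊢
    have h10 : (2 : ℝ) * 3 ^ m ≤ (N : ℝ) * (K : ℝ) := by
      have h11 : (0 : ℝ) ≤ (K : ℝ) := Nat.cast_nonneg K
      have h12 := mul_le_mul_of_nonneg_right h9.le h11
      have h13 : (0 : ℝ) < 3 ^ m := by positivity
      have h14 := mul_le_mul_of_nonneg_right hKε h13.le
      have h15 : ε * 3 ^ m * (K : ℝ) = (K : ℝ) * ε * 3 ^ m := by ring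
      linarith
    linarith
  -- iteration
  have hit : ∀ j : ℕ, (nal (j * l) [true] : ℝ) * 3 ^ l ≤ 3 ^ (j * l) * (3 ^ l - (j : ℝ)) := by
    intro j
    induction j with
    | zero =>
      rw [Nat.zero_mul]
      have h3 : (nal 0 [true] : ℝ) = 1 := by
        have : nal 0 [true] = 1 := rfl
        rw [this, Nat.cast_one]
      rw [h3]
      simp
    | succ j ih =>
      have e : (j + 1) * l = l + j * l := by ring
      rw [e, pow_add]
      have h3 := hdec (j * l)
      have h4 : (0 : ℝ) < 3 ^ l := by positivity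
      have h5 := mul_le_mul_of_nonneg_right h3 h4.le
      have h6 := mul_le_mul_of_nonneg_left ih h4.le
      push_cast
      nlinarith
  obtain ⟨j, hj⟩ := exists_nat_gt ((3 : ℝ) ^ l)
  have h3 := hit j
  have h4 : (0 : ℝ) ≤ (nal (j * l) [true] : ℝ) * 3 ^ l := by positivity
  have h5 : (3 : ℝ) ^ (j * l) * (3 ^ l - (j : ℝ)) < 0 :=
    mul_neg_of_pos_of_neg (by positivity) (by linarith)
  linarith

end Pool.Agent.Helper29.SD
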